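import Pool.Agent.Work.MP_b5407d_pos_helper13.Blocks
import Pool.Agent.Work.MP_b5407d_lbm_helper35.PathBasics

/-! Block THIN (helper64): the outer chain is one edge; all functionals are `O(d)`. -/

set_option autoImplicit false

open MeasureTheory Set Filter Topology

namespace Pool.Agent.Work.MP_b5407d_pos_h64.Thin

open Pool.LBM Pool.LBM.Path Pool.Agent.Work.MP_b5407d_pos_h13

/-! ### Piecewise linear functions -/

theorem pl_lin (a b : ℕ → ℝ) (α β γ t : ℝ) :
    pl (fun k => α + β * a k + γ * b k) t = α + β * pl a t + γ * pl b t := by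
  unfold pl; ring

theorem pl_lin1 (a : ℕ → ℝ) (α β t : ℝ) :
    pl (fun k => α + β * a k) t = α + β * pl a t := by
  unfold pl; ring

theorem dpl_lin1 (a : ℕ → ℝ) (α β t : ℝ) :
    dpl (fun k => α + β * a k) t = β * dpl a t := by
  unfold dpl; ring

theorem floor_mem {i j : ℕ} {t : ℝ} (h1 : (i : ℝ) ≤ t) (h2 : t < j) :
    i ≤ ⌊t⌋₊ ∧ ⌊t⌋₊ + 1 ≤ j := by
  constructor
  · exact Nat.le_floor h1
  · have h0 : 0 ≤ t := (Nat.cast_nonneg i).trans h1
    have := (Nat.floor_lt h0).2 h2
    omega

theorem pl_nonneg (c : ℕ → ℝ) {i j : ℕ} (hc : ∀ l, i ≤ l → l ≤ j → 0 ≤ c l) {t : ℝ}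
    (h1 : (i : ℝ) ≤ t) (h2 : t < j) : 0 ≤ pl c t := by
  obtain ⟨h3, h4⟩ := floor_mem h1 h2
  have h0 : 0 ≤ t := (Nat.cast_nonneg i).trans h1
  have e : pl c t = (1 - (t - ⌊t⌋₊)) * c ⌊t⌋₊ + (t - ⌊t⌋₊) * c (⌊t⌋₊ + 1) := by
    unfold pl; ring
  rw [e]
  have h5 : 0 ≤ t - ⌊t⌋₊ := sub_nonneg.2 (Nat.floor_le h0)
  have h6 : t - ⌊t⌋₊ ≤ 1 := by
    have := Nat.lt_floor_add_one t
    linarith
  have h7 := hc ⌊t⌋₊ h3 (by omega)
  have h8 := hc (⌊t⌋₊ + 1) (by omega) h4
  have h9 : 0 ≤ 1 - (t - ⌊t⌋₊) := by linarith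
  positivity

/-- change of variables along a path -/
theorem chv (a : ℕ → ℝ) {F : ℝ → ℝ} (hF : Continuous F) (s t : ℝ) :
    (∫ x in s..t, F (pl a x) * dpl a x) = ∫ y in (pl a s)..(pl a t), F y := by
  have hG : ∀ y, HasDerivAt (fun y => ∫ z in (0 : ℝ)..y, F z) (F y) y := fun y =>
    intervalIntegral.integral_hasDerivAt_right (hF.intervalIntegrable 0 y)
      (hF.stronglyMeasurable.stronglyMeasurableAtFilter) hF.continuousAt
  have hGc : Continuous (fun y => ∫ z in (0 : ℝ)..y, F z) :=
    intervalIntegral.continuous_primitive (fun x y => hF.intervalIntegrable x y) 0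
  have h := ftc (F := fun t => ∫ z in (0 : ℝ)..(pl a t), F z)
    (F' := fun t => F (pl a t) * dpl a t) (hGc.comp (cont_pl a))
    (fun t ht => (hG (pl a t)).comp t (deriv_pl a ht))
    (mul_ii a (hF.comp (cont_pl a)) s t)
  rw [h]
  exact (intervalIntegral.integral_interval_sub_left (hF.intervalIntegrable _ _)
    (hF.intervalIntegrable _ _))

theorem closed_zero (a : ℕ → ℝ) (m : ℕ) (h0 : a 0 = 0) (hm : a m = 0) {F : ℝ → ℝ}
    (hF : Continuous F) : (∫ x in (0 : ℝ)..m, F (pl a x) * dpl a x) = 0 := by
  rw [chv a hF, pl_zero, pl_nat, h0, hm, intervalIntegral.integral_same]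

/-! ### Paths on a line -/

section line
variable (v w α β : ℝ) (a : ℕ → ℝ) (m r : ℕ)

/-- weight on the line -/
noncomputable def eL (x : ℝ) : ℝ := Real.exp (-(v * x) - w * (α + β * x))

theorem eL_cont : Continuous (eL v w α β) := by unfold eL; fun_prop

theorem eL_ne (x : ℝ) : eL v w α β x ≠ 0 := (Real.exp_pos _).ne'

theorem pe_line (t : ℝ) : pe v w a (fun k => α + β * a k) t = eL v w α β (pl a t) := by
  unfold pe eL; rw [pl_lin1]

theorem pX_line (h0 : a 0 = 0) (t : ℝ) : pX v w a (fun k => α + β * a k) t =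
    ∫ y in (0 : ℝ)..(pl a t), eL v w α β y := by
  unfold pX
  simp only [pe_line]
  rw [chv a (eL_cont v w α β), pl_zero, h0]

/-- `q` on the line -/
noncomputable def qL (x : ℝ) : ℝ := Real.exp (-(v * x)) * mE w (α + β * x)

theorem qL_cont : Continuous (qL v w α β) := by
  have := mE_cont w
  unfold qL; fun_prop

theorem pL_line (h0 : a 0 = 0) (t : ℝ) : pL v w a (fun k => α + β * a k) t =
    ∫ y in (0 : ℝ)..(pl a t), qL v w α β y := by
  unfold pL
  have : ∀ s, pq v w a (fun k => α + β * a k) s = qL v w α β (pl a s) := by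
    intro s; unfold pq qL; rw [pl_lin1]
  simp only [this]
  rw [chv a (qL_cont v w α β), pl_zero, h0]

theorem pR_line (h0 : a 0 = 0) (hm : a m = 0) (t : ℝ) :
    pR v w a (fun k => α + β * a k) m r t = ∫ y in (0 : ℝ)..(pl a t), qL v w α β y := by
  have hJ : pJ v w a (fun k => α + β * a k) m = 0 := by
    unfold pJ
    rw [pL_line v w α β a h0, pl_nat, hm, intervalIntegral.integral_same, neg_zero]
  unfold pR
  rw [hJ, ite_self, add_zero, pL_line v w α β a h0]

theorem prim_cont' {F : ℝ → ℝ} (hF : Continuous F) :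
    Continuous fun x : ℝ => ∫ y in (0 : ℝ)..x, F y :=
  intervalIntegral.continuous_primitive (fun x y => hF.intervalIntegrable x y) 0

theorem line_zero (h0 : a 0 = 0) (hm : a m = 0) :
    pd v w a (fun k => α + β * a k) m = 0 ∧ pP v w a (fun k => α + β * a k) m = 0 ∧
    pN v w a (fun k => α + β * a k) m r = 0 ∧ pM v w a (fun k => α + β * a k) m r = 0 := by
  have hE := eL_cont v w α β
  have hEn := eL_ne v w α β
  have hX := prim_cont' hE
  have hL := prim_cont' (qL_cont v w α β)
  have hm' := mE_cont v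
  refine ⟨?_, ?_, ?_, ?_⟩
  · unfold pd
    have h := closed_zero a m h0 hm (F := fun x => mE v x / eL v w α β x * β)
      ((hm'.div hE hEn).mul continuous_const)
    refine Eq.trans (intervalIntegral.integral_congr fun t _ => ?_) h
    simp only [pe_line, dpl_lin1]
    ring
  · unfold pP
    have h := closed_zero a m h0 hm
      (F := fun x => (∫ y in (0 : ℝ)..x, eL v w α β y) * mE v x / eL v w α β x * β)
      (((hX.mul hm').div hE hEn).mul continuous_const)
    refine Eq.trans (intervalIntegral.integral_congr fun t _ => ?_) h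
    simp only [pe_line, dpl_lin1, pX_line v w α β a h0]
    ring
  · unfold pN
    have h := closed_zero a m h0 hm
      (F := fun x => (∫ y in (0 : ℝ)..x, qL v w α β y) / eL v w α β x * β)
      ((hL.div hE hEn).mul continuous_const)
    refine Eq.trans (intervalIntegral.integral_congr fun t _ => ?_) h
    simp only [pe_line, dpl_lin1, pR_line v w α β a m r h0 hm]
    ring
  · unfold pM
    have h := closed_zero a m h0 hm
      (F := fun x => (∫ y in (0 : ℝ)..x, eL v w α β y) * (∫ y in (0 : ℝ)..x, qL v w α β y) /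
        eL v w α β x * β) (((hX.mul hL).div hE hEn).mul continuous_const)
    refine Eq.trans (intervalIntegral.integral_congr fun t _ => ?_) h
    simp only [pe_line, dpl_lin1, pX_line v w α β a h0, pR_line v w α β a m r h0 hm]
    ring

end line

/-! ### The formula for `d` -/

theorem mE_neg (v x : ℝ) : mE (-v) x = Real.exp (v * x) * mE v x := by
  have h := exp_mE_neg v x
  rw [← h, ← mul_assoc, ← Real.exp_add]
  simp

theorem pd_eq (v w : ℝ) (a b : ℕ → ℝ) (m : ℕ) (h0 : a 0 = 0) (hm : a m = 0) :
    pd v w a b m =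
      -∫ t in (0 : ℝ)..m, Real.exp (v * pl a t) * mE (-w) (pl b t) * dpl a t := by
  have hx := cont_pl a
  have hy := cont_pl b
  have c1 := mE_cont (-v)
  have c2 := mE_cont (-w)
  have h := ftc2 a b (F := fun t => mE (-v) (pl a t) * mE (-w) (pl b t))
    (f := fun t => Real.exp (v * pl a t) * mE (-w) (pl b t))
    (g := fun t => mE (-v) (pl a t) * Real.exp (w * pl b t)) (by fun_prop) (by fun_prop)
    (by fun_prop) (fun t ht => by
      have d1 := (mE_deriv (-v) (pl a t)).comp t (deriv_pl a ht)
      have d2 := (mE_deriv (-w) (pl b t)).comp t (deriv_pl b ht)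
      refine (d1.mul d2).congr_deriv ?_
      have e1 : Real.exp (-(-v * pl a t)) = Real.exp (v * pl a t) := by congr 1; ring
      have e2 : Real.exp (-(-w * pl b t)) = Real.exp (w * pl b t) := by congr 1; ring
      simp only [Function.comp_apply]
      rw [e1, e2]
      ring) 0 m
  rw [pl_zero, pl_nat, h0, hm, mE_zero, zero_mul, zero_mul, sub_zero] at h
  have h2 : pd v w a b m =
      ∫ t in (0 : ℝ)..m, mE (-v) (pl a t) * Real.exp (w * pl b t) * dpl b t := by
    unfold pd
    refine intervalIntegral.integral_congr fun t _ => ?_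
    rw [mE_neg]
    unfold pe
    have : Real.exp (-(v * pl a t) - w * pl b t) =
        (Real.exp (v * pl a t) * Real.exp (w * pl b t))⁻¹ := by
      rw [← Real.exp_add, ← Real.exp_neg]; congr 1; ring
    rw [this]
    field_simp
  rw [h2]
  linarith

theorem mE_diff (w B x y : ℝ) (hx : 0 ≤ x) (hxy : x ≤ y) (hy : y ≤ B) :
    Real.exp (-(|w| * B)) * (y - x) ≤ mE (-w) y - mE (-w) x := by
  have hc : Continuous fun s : ℝ => Real.exp (-(-w * s)) := by fun_prop
  have e : mE (-w) y - mE (-w) x = ∫ s in x..y, Real.exp (-(-w * s)) := by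
    unfold mE
    rw [intervalIntegral.integral_interval_sub_left (hc.intervalIntegrable _ _)
      (hc.intervalIntegrable _ _)]
  rw [e]
  have h1 : ∫ _s in x..y, Real.exp (-(|w| * B)) ≤ ∫ s in x..y, Real.exp (-(-w * s)) := by
    refine intervalIntegral.integral_mono_on hxy intervalIntegrable_const
      (hc.intervalIntegrable _ _) fun s hs => ?_
    refine Real.exp_le_exp.2 ?_
    have h2 : -(|w| * s) ≤ w * s := by
      have := neg_abs_le w
      have hs0 : 0 ≤ s := hx.trans hs.1
      nlinarith
    have h3 : |w| * s ≤ |w| * B :=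
      mul_le_mul_of_nonneg_left (hs.2.trans hy) (abs_nonneg w)
    linarith
  rw [intervalIntegral.integral_const, smul_eq_mul] at h1
  linarith

end Pool.Agent.Work.MP_b5407d_pos_h64.Thin

namespace Pool.Agent.Work.MP_b5407d_pos_h64

open Pool.LBM Pool.LBM.Path Pool.Agent.Work.MP_b5407d_pos_h13 Thin

/-- the area between the chain and the line, from below -/
theorem area_le (r : ℕ) (A B : ℝ) (hA : 0 < A) (a b : ℕ → ℝ) (h0 : a 0 = 0) (hbr : b r = 0)
    (ha1 : a (r + 1) = A) (hb1 : b (r + 1) = 0) (ha2 : a (r + 2) = 0) (hb2 : b (r + 2) = B)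
    (hmon : ∀ k ≤ r, a k ≤ a (k + 1))
    (ha : ∀ k ≤ r, 0 ≤ a k ∧ a k ≤ A)
    (hconv : ∀ i j k, i < j → j < k → k ≤ r + 2 →
      0 ≤ (a j - a i) * (b k - b i) - (b j - b i) * (a k - a i))
    (k : ℕ) (hk : k ≤ r) :
    (B - B / A * a k - b k) * A / 2 ≤
      ∫ t in (0 : ℝ)..((r + 1 : ℕ) : ℝ), (B - B / A * pl a t - pl b t) * dpl a t := by
  set h : ℕ → ℝ := fun k => B - B / A * a k - b k with hh
  have hpl : ∀ t, B - B / A * pl a t - pl b t = pl h t := by
    intro t
    have := pl_lin a b B (-(B / A)) (-1) t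
    have e : h = fun k => B + -(B / A) * a k + -1 * b k := by
      funext k; rw [hh]; ring
    rw [e, this]; ring
  simp only [hpl]
  change h k * A / 2 ≤ _
  have hAB : B / A * A = B := by field_simp
  -- nonnegativity
  have hn : ∀ j ≤ r + 1, 0 ≤ h j := by
    intro j hj
    rcases Nat.lt_or_ge j (r + 1) with hj' | hj'
    · have h1 := hconv j (r + 1) (r + 2) hj' (by omega) le_rfl
      rw [ha1, hb1, ha2, hb2] at h1
      have h2 : h j * A = (A - a j) * (B - b j) - (0 - b j) * (0 - a j) := by
        change (B - B / A * a j - b j) * A = _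
        linear_combination (-a j) * hAB
      have h3 : 0 ≤ h j * A := by rw [h2]; exact h1
      exact nonneg_of_mul_nonneg_left h3 hA
    · have : j = r + 1 := by omega
      subst this
      change 0 ≤ B - B / A * a (r + 1) - b (r + 1)
      rw [ha1, hb1, hAB]; norm_num
  have hr1 : h (r + 1) = 0 := by
    change B - B / A * a (r + 1) - b (r + 1) = 0
    rw [ha1, hb1, hAB]; ring
  have hdn : ∀ t, 0 ≤ t → t < ((r + 1 : ℕ) : ℝ) → 0 ≤ dpl a t := by
    intro t ht1 ht2
    obtain ⟨_, h4⟩ := floor_mem (i := 0) (by simpa using ht1) ht2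
    unfold dpl
    have := hmon ⌊t⌋₊ (by omega)
    linarith
  have hch := cont_pl h
  have hca := cont_pl a
  have hii : ∀ s t : ℝ, IntervalIntegrable (fun x => pl h x * dpl a x) volume s t :=
    fun s t => mul_ii a hch s t
  have hkr : (k : ℝ) ≤ ((r + 1 : ℕ) : ℝ) := by exact_mod_cast hk.trans (Nat.le_succ r)
  have hk0 : (0 : ℝ) ≤ (k : ℝ) := Nat.cast_nonneg k
  have hhk := hn k (by omega)
  obtain ⟨hak0, hakA⟩ := ha k hk
  rw [← intervalIntegral.integral_add_adjacent_intervals (hii 0 k) (hii k _)]
  -- first part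
  have hfirst : h k * a k / 2 ≤ ∫ x in (0 : ℝ)..k, pl h x * dpl a x := by
    have hnn : 0 ≤ ∫ x in (0 : ℝ)..k, pl h x * dpl a x := by
      have h1 : ∫ _x in (0 : ℝ)..k, (0 : ℝ) ≤ ∫ x in (0 : ℝ)..k, pl h x * dpl a x := by
        refine intervalIntegral.integral_mono_on_of_le_Ioo hk0 intervalIntegrable_const
          (hii 0 k) fun t ht => ?_
        have h2 : t < ((r + 1 : ℕ) : ℝ) := lt_of_lt_of_le ht.2 hkr
        exact mul_nonneg (pl_nonneg h (i := 0) (j := r + 1) (fun l _ hl => hn l hl)
          (by simpa using ht.1.le) h2) (hdn t ht.1.le h2)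
      simpa using h1
    rcases hak0.eq_or_lt with h00 | hpos
    · rw [← h00]; simpa using hnn
    · have h1 : ∫ x in (0 : ℝ)..k, (h k * pl a x) * dpl a x ≤
          ∫ x in (0 : ℝ)..k, (a k * pl h x) * dpl a x := by
        refine intervalIntegral.integral_mono_on_of_le_Ioo hk0
          (mul_ii a (continuous_const.mul hca) _ _)
          (mul_ii a (continuous_const.mul hch) _ _) fun t ht => ?_
        have h2 : t < ((r + 1 : ℕ) : ℝ) := lt_of_lt_of_le ht.2 hkr
        refine mul_le_mul_of_nonneg_right ?_ (hdn t ht.1.le h2)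
        have h3 : 0 ≤ pl (fun j => 0 + a k * h j + (-h k) * a j) t := by
          refine pl_nonneg _ (i := 0) (j := k) (fun l _ hl => ?_) (by simpa using ht.1.le) ht.2
          rcases hl.eq_or_lt with rfl | hlk
          · apply le_of_eq; ring
          · have h4 := hconv l k (r + 2) hlk (by omega) le_rfl
            rw [ha2, hb2] at h4
            have h5 : 0 + a k * h l + (-h k) * a l =
                (a k - a l) * (B - b l) - (b k - b l) * (0 - a l) := by
              simp only [hh]; ring
            rw [h5]; exact h4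
        rw [pl_lin] at h3
        linarith
      have e1 : ∫ x in (0 : ℝ)..k, (h k * pl a x) * dpl a x = h k * (a k ^ 2 / 2) := by
        have := chv a (F := fun x => h k * x) (by fun_prop) 0 k
        rw [this, pl_zero, pl_nat, h0, intervalIntegral.integral_const_mul, integral_id]
        ring
      have e2 : ∫ x in (0 : ℝ)..k, (a k * pl h x) * dpl a x =
          a k * ∫ x in (0 : ℝ)..k, pl h x * dpl a x := by
        rw [← intervalIntegral.integral_const_mul]
        refine intervalIntegral.integral_congr fun t _ => ?_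
        ring
      rw [e1, e2] at h1
      have h2 : a k * (h k * a k / 2) ≤ a k * ∫ x in (0 : ℝ)..k, pl h x * dpl a x := by
        linarith
      exact le_of_mul_le_mul_left h2 hpos
  -- second part
  have hsecond : h k * (A - a k) / 2 ≤
      ∫ x in (k : ℝ)..((r + 1 : ℕ) : ℝ), pl h x * dpl a x := by
    have hnn : 0 ≤ ∫ x in (k : ℝ)..((r + 1 : ℕ) : ℝ), pl h x * dpl a x := by
      have h1 : ∫ _x in (k : ℝ)..((r + 1 : ℕ) : ℝ), (0 : ℝ) ≤
          ∫ x in (k : ℝ)..((r + 1 : ℕ) : ℝ), pl h x * dpl a x := by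
        refine intervalIntegral.integral_mono_on_of_le_Ioo hkr intervalIntegrable_const
          (hii _ _) fun t ht => ?_
        have h2 : 0 ≤ t := hk0.trans ht.1.le
        exact mul_nonneg (pl_nonneg h (i := 0) (j := r + 1) (fun l _ hl => hn l hl)
          (by simpa using h2) ht.2) (hdn t h2 ht.2)
      simpa using h1
    have hAk : 0 ≤ A - a k := by linarith
    rcases hAk.eq_or_lt with h00 | hpos
    · rw [← h00]; simpa using hnn
    · have h1 : ∫ x in (k : ℝ)..((r + 1 : ℕ) : ℝ), (h k * (A - pl a x)) * dpl a x ≤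
          ∫ x in (k : ℝ)..((r + 1 : ℕ) : ℝ), ((A - a k) * pl h x) * dpl a x := by
        refine intervalIntegral.integral_mono_on_of_le_Ioo hkr
          (mul_ii a (continuous_const.mul (continuous_const.sub hca)) _ _)
          (mul_ii a (continuous_const.mul hch) _ _) fun t ht => ?_
        have h2 : 0 ≤ t := hk0.trans ht.1.le
        refine mul_le_mul_of_nonneg_right ?_ (hdn t h2 ht.2)
        have h3 : 0 ≤ pl (fun j => (-(h k * A)) + (A - a k) * h j + (h k) * a j) t := by
          refine pl_nonneg _ (i := k) (j := r + 1) (fun l hl1 hl2 => ?_) ht.1.le ht.2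
          rcases Nat.lt_or_ge l (r + 1) with hl | hl
          · rcases hl1.eq_or_lt with rfl | hlk
            · apply le_of_eq; ring
            · have h4 := hconv k l (r + 1) hlk hl (by omega)
              rw [ha1, hb1] at h4
              have h5 : (-(h k * A)) + (A - a k) * h l + (h k) * a l =
                  (a l - a k) * (0 - b k) - (b l - b k) * (A - a k) := by
                simp only [hh]
                linear_combination (a k - a l) * hAB
              rw [h5]; exact h4
          · have : l = r + 1 := by omega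
            subst this
            rw [hr1, ha1]
            apply le_of_eq; ring
        rw [pl_lin] at h3
        linarith
      have e1 : ∫ x in (k : ℝ)..((r + 1 : ℕ) : ℝ), (h k * (A - pl a x)) * dpl a x =
          h k * ((A - a k) ^ 2 / 2) := by
        have := chv a (F := fun x => h k * (A - x)) (by fun_prop) k ((r + 1 : ℕ) : ℝ)
        rw [this, pl_nat, pl_nat, ha1, intervalIntegral.integral_const_mul,
          intervalIntegral.integral_sub (by simp) (by simp), integral_id,
          intervalIntegral.integral_const, smul_eq_mul]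
        ring
      have e2 : ∫ x in (k : ℝ)..((r + 1 : ℕ) : ℝ), ((A - a k) * pl h x) * dpl a x =
          (A - a k) * ∫ x in (k : ℝ)..((r + 1 : ℕ) : ℝ), pl h x * dpl a x := by
        rw [← intervalIntegral.integral_const_mul]
        refine intervalIntegral.integral_congr fun t _ => ?_
        ring
      rw [e1, e2] at h1
      have h2 : (A - a k) * (h k * (A - a k) / 2) ≤
          (A - a k) * ∫ x in (k : ℝ)..((r + 1 : ℕ) : ℝ), pl h x * dpl a x := by
        linarith
      exact le_of_mul_le_mul_left h2 hpos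
  linarith

/-- the lower bound for `d` -/
theorem pd_ge (r : ℕ) (v w A B : ℝ) (hA : 0 < A) (hB : 0 < B) (a b : ℕ → ℝ) (h0 : a 0 = 0)
    (hbr : b r = 0)
    (ha1 : a (r + 1) = A) (hb1 : b (r + 1) = 0) (ha2 : a (r + 2) = 0) (hb2 : b (r + 2) = B)
    (hmon : ∀ k ≤ r, a k ≤ a (k + 1))
    (ha : ∀ k ≤ r, 0 ≤ a k ∧ a k ≤ A) (hb : ∀ k ≤ r, 0 ≤ b k ∧ b k ≤ B)
    (hconv : ∀ i j k, i < j → j < k → k ≤ r + 2 →
      0 ≤ (a j - a i) * (b k - b i) - (b j - b i) * (a k - a i))
    (k : ℕ) (hk : k ≤ r) :
    Real.exp (-(|v| * A)) * Real.exp (-(|w| * B)) * ((B - B / A * a k - b k) * A / 2) ≤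
      pd v w a b (r + 2) := by
  have hAB : B / A * A = B := by field_simp
  have hx := cont_pl a
  have hy := cont_pl b
  have c2 := mE_cont (-w)
  have hc : 0 ≤ Real.exp (-(|v| * A)) * Real.exp (-(|w| * B)) := by positivity
  have harea := area_le r A B hA a b h0 hbr ha1 hb1 ha2 hb2 hmon ha hconv k hk
  refine (mul_le_mul_of_nonneg_left harea hc).trans ?_
  -- the formula for `d`
  have e0 := closed_zero a (r + 2) h0 ha2
    (F := fun x => Real.exp (v * x) * mE (-w) (B - B / A * x)) (by fun_prop)
  have e1 : pd v w a b (r + 2) = ∫ t in (0 : ℝ)..((r + 2 : ℕ) : ℝ),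
      (Real.exp (v * pl a t) * (mE (-w) (B - B / A * pl a t) - mE (-w) (pl b t))) *
        dpl a t := by
    rw [pd_eq v w a b (r + 2) h0 ha2]
    have e2 : ∫ t in (0 : ℝ)..((r + 2 : ℕ) : ℝ),
        (Real.exp (v * pl a t) * (mE (-w) (B - B / A * pl a t) - mE (-w) (pl b t))) * dpl a t =
        (∫ t in (0 : ℝ)..((r + 2 : ℕ) : ℝ),
          (Real.exp (v * pl a t) * mE (-w) (B - B / A * pl a t)) * dpl a t) -
        ∫ t in (0 : ℝ)..((r + 2 : ℕ) : ℝ), (Real.exp (v * pl a t) * mE (-w) (pl b t)) * dpl a t := by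
      rw [← intervalIntegral.integral_sub (mul_ii a (by fun_prop) _ _)
        (mul_ii a (by fun_prop) _ _)]
      refine intervalIntegral.integral_congr fun t _ => ?_
      ring
    rw [e2, e0, zero_sub]
  have hcont : Continuous fun t =>
      Real.exp (v * pl a t) * (mE (-w) (B - B / A * pl a t) - mE (-w) (pl b t)) := by fun_prop
  rw [e1, ← intervalIntegral.integral_add_adjacent_intervals (mul_ii a hcont 0 ((r + 1 : ℕ) : ℝ))
    (mul_ii a hcont ((r + 1 : ℕ) : ℝ) ((r + 2 : ℕ) : ℝ))]
  have hlast : ∫ t in ((r + 1 : ℕ) : ℝ)..((r + 2 : ℕ) : ℝ),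
      (Real.exp (v * pl a t) * (mE (-w) (B - B / A * pl a t) - mE (-w) (pl b t))) *
        dpl a t = 0 := by
    have : ∫ t in ((r + 1 : ℕ) : ℝ)..((r + 2 : ℕ) : ℝ),
        (Real.exp (v * pl a t) * (mE (-w) (B - B / A * pl a t) - mE (-w) (pl b t))) *
          dpl a t = ∫ _t in ((r + 1 : ℕ) : ℝ)..((r + 2 : ℕ) : ℝ), (0 : ℝ) := by
      refine intervalIntegral.integral_congr fun t ht => ?_
      have hle : ((r + 1 : ℕ) : ℝ) ≤ ((r + 2 : ℕ) : ℝ) := by exact_mod_cast Nat.le_succ _
      rw [uIcc_of_le hle] at ht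
      have h2 : t ≤ ((r + 1 : ℕ) : ℝ) + 1 := by
        have := ht.2
        push_cast at this ⊢
        linarith
      have p1 := pl_aff a (r + 1) ht.1 h2
      have p2 := pl_aff b (r + 1) ht.1 h2
      rw [ha1, ha2] at p1
      rw [hb1, hb2] at p2
      have : B - B / A * pl a t = pl b t := by
        rw [p1, p2]
        linear_combination (-1 + (t - ((r + 1 : ℕ) : ℝ))) * hAB
      simp only [this, sub_self, mul_zero, zero_mul]
    rw [this]; simp
  rw [hlast, add_zero, ← intervalIntegral.integral_const_mul]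
  have hr0 : (0 : ℝ) ≤ ((r + 1 : ℕ) : ℝ) := Nat.cast_nonneg _
  refine intervalIntegral.integral_mono_on_of_le_Ioo hr0 ?_ (mul_ii a hcont _ _) fun t ht => ?_
  · have := mul_ii a (g := fun t => Real.exp (-(|v| * A)) * Real.exp (-(|w| * B)) *
      (B - B / A * pl a t - pl b t)) (by fun_prop) 0 ((r + 1 : ℕ) : ℝ)
    refine this.congr fun t _ => ?_
    ring
  · have hd : 0 ≤ dpl a t := by
      obtain ⟨_, h4⟩ := floor_mem (i := 0) (by simpa using ht.1.le) ht.2
      unfold dpl
      have := hmon ⌊t⌋₊ (by omega)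
      linarith
    have ha' : ∀ l ≤ r + 1, 0 ≤ a l ∧ a l ≤ A := by
      intro l hl
      rcases Nat.lt_or_ge l (r + 1) with h | h
      · exact ha l (by omega)
      · have : l = r + 1 := by omega
        subst this; rw [ha1]; exact ⟨hA.le, le_rfl⟩
    have hb' : ∀ l ≤ r + 1, 0 ≤ b l ∧ b l ≤ B := by
      intro l hl
      rcases Nat.lt_or_ge l (r + 1) with h | h
      · exact hb l (by omega)
      · have : l = r + 1 := by omega
        subst this; rw [hb1]; exact ⟨le_rfl, hB.le⟩
    have x0 : 0 ≤ pl a t := pl_nonneg a (i := 0) (j := r + 1) (fun l _ hl => (ha' l hl).1)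
      (by simpa using ht.1.le) ht.2
    have xA : pl a t ≤ A := by
      have := pl_nonneg (fun l => A + (-1) * a l) (i := 0) (j := r + 1)
        (fun l _ hl => by have := (ha' l hl).2; linarith) (by simpa using ht.1.le) ht.2
      rw [pl_lin1] at this; linarith
    have y0 : 0 ≤ pl b t := pl_nonneg b (i := 0) (j := r + 1) (fun l _ hl => (hb' l hl).1)
      (by simpa using ht.1.le) ht.2
    have hg : pl b t ≤ B - B / A * pl a t := by
      have := pl_nonneg (fun l => B + (-(B / A)) * a l + (-1) * b l) (i := 0) (j := r + 1)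
        (fun l _ hl => by
          rcases Nat.lt_or_ge l (r + 1) with h | h
          · have h1 := hconv l (r + 1) (r + 2) h (by omega) le_rfl
            rw [ha1, hb1, ha2, hb2] at h1
            have h2 : (B + (-(B / A)) * a l + (-1) * b l) * A =
                (A - a l) * (B - b l) - (0 - b l) * (0 - a l) := by
              linear_combination (-a l) * hAB
            have h3 : 0 ≤ (B + (-(B / A)) * a l + (-1) * b l) * A := by rw [h2]; exact h1
            exact nonneg_of_mul_nonneg_left h3 hA
          · have : l = r + 1 := by omega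
            subst this
            rw [ha1, hb1]
            linarith) (by simpa using ht.1.le) ht.2
      rw [pl_lin] at this; linarith
    have hgB : B - B / A * pl a t ≤ B := by
      have : 0 ≤ B / A * pl a t := by positivity
      linarith
    have k1 := mE_diff w B (pl b t) (B - B / A * pl a t) y0 hg hgB
    have k2 : Real.exp (-(|v| * A)) ≤ Real.exp (v * pl a t) := by
      refine Real.exp_le_exp.2 ?_
      have h2 : -(|v| * pl a t) ≤ v * pl a t := by
        have := neg_abs_le v
        nlinarith
      have h3 : |v| * pl a t ≤ |v| * A := mul_le_mul_of_nonneg_left xA (abs_nonneg v)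
      linarith
    have k3 : 0 ≤ B - B / A * pl a t - pl b t := by linarith
    calc Real.exp (-(|v| * A)) * Real.exp (-(|w| * B)) *
          ((B - B / A * pl a t - pl b t) * dpl a t)
        = (Real.exp (-(|v| * A)) * (Real.exp (-(|w| * B)) *
          (B - B / A * pl a t - pl b t))) * dpl a t := by ring
      _ ≤ (Real.exp (v * pl a t) * (mE (-w) (B - B / A * pl a t) - mE (-w) (pl b t))) *
          dpl a t := by
          refine mul_le_mul_of_nonneg_right ?_ hd
          exact mul_le_mul k2 k1 (by positivity) (by positivity)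

theorem blk_THIN : Stmt_THIN := by
  intro hLIP r v w A B hA hB
  obtain ⟨L, hL0, hL⟩ := hLIP (r + 2) r v w (max A B)
  set c : ℝ := Real.exp (-(|v| * A)) * Real.exp (-(|w| * B)) with hc
  have hcpos : 0 < c := by positivity
  have hAB : B / A * A = B := by field_simp
  refine ⟨L * (((r : ℝ) + 1) * ((1 + A / B) * (2 / (c * A)))), ?_⟩
  intro a b h0 hbr ha1 hb1 ha2 hb2 hmon harA hb0B hconv
  -- monotonicity
  have hmon' : ∀ k ≤ r, a k ≤ a (k + 1) := by
    intro k hk
    rcases hk.eq_or_lt with rfl | hk
    · rw [ha1]; exact harA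
    · exact (hmon k hk).1
  have hup : ∀ k ≤ r, 0 ≤ a k ∧ b k ≤ B := by
    intro k
    induction k with
    | zero => intro _; rw [h0]; exact ⟨le_rfl, hb0B⟩
    | succ k ih =>
      intro hk
      obtain ⟨i1, i2⟩ := ih (by omega)
      obtain ⟨j1, j2⟩ := hmon k (by omega)
      exact ⟨i1.trans j1, j2.trans i2⟩
  have hdown : ∀ j ≤ r, a (r - j) ≤ A ∧ 0 ≤ b (r - j) := by
    intro j
    induction j with
    | zero => intro _; rw [Nat.sub_zero, hbr]; exact ⟨harA, le_rfl⟩
    | succ j ih =>
      intro hj
      obtain ⟨i1, i2⟩ := ih (by omega)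
      obtain ⟨j1, j2⟩ := hmon (r - (j + 1)) (by omega)
      have e : r - (j + 1) + 1 = r - j := by omega
      rw [e] at j1 j2
      exact ⟨j1.trans i1, i2.trans j2⟩
  have ha : ∀ k ≤ r, 0 ≤ a k ∧ a k ≤ A := fun k hk => by
    have := (hdown (r - k) (by omega)).1
    rw [Nat.sub_sub_self hk] at this
    exact ⟨(hup k hk).1, this⟩
  have hb : ∀ k ≤ r, 0 ≤ b k ∧ b k ≤ B := fun k hk => by
    have := (hdown (r - k) (by omega)).2
    rw [Nat.sub_sub_self hk] at this
    exact ⟨this, (hup k hk).2⟩
  have hge := pd_ge r v w A B hA hB a b h0 hbr ha1 hb1 ha2 hb2 hmon' ha hb hconv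
  -- nonnegativity of the defect
  have hn : ∀ j ≤ r, 0 ≤ B - B / A * a j - b j := by
    intro j hj
    have h1 := hconv j (r + 1) (r + 2) (by omega) (by omega) le_rfl
    rw [ha1, hb1, ha2, hb2] at h1
    have h2 : (B - B / A * a j - b j) * A = (A - a j) * (B - b j) - (0 - b j) * (0 - a j) := by
      linear_combination (-a j) * hAB
    have h3 : 0 ≤ (B - B / A * a j - b j) * A := by rw [h2]; exact h1
    exact nonneg_of_mul_nonneg_left h3 hA
  set D : ℝ := pd v w a b (r + 2) with hD
  have hD0 : 0 ≤ D := by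
    have h1 := hge 0 (Nat.zero_le r)
    have h2 := hn 0 (Nat.zero_le r)
    refine le_trans ?_ h1
    positivity
  have hH : ∀ k ≤ r, B - B / A * a k - b k ≤ 2 / (c * A) * D := by
    intro k hk
    have h1 := hge k hk
    rw [← hc] at h1
    have h2 : 0 < c * A := by positivity
    have e : 2 / (c * A) * D = 2 * D / (c * A) := by ring
    rw [e, le_div_iff₀ h2]
    linarith
  -- the path on the line
  set a' : ℕ → ℝ := fun k => if k = r ∧ 0 < r then A else a k with ha'
  have ha'0 : a' 0 = 0 := by
    simp only [ha']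
    rw [if_neg (by rintro ⟨h1, h2⟩; omega), h0]
  have ha'1 : a' (r + 1) = A := by
    simp only [ha']
    rw [if_neg (by rintro ⟨h1, h2⟩; omega), ha1]
  have ha'2 : a' (r + 2) = 0 := by
    simp only [ha']
    rw [if_neg (by rintro ⟨h1, h2⟩; omega), ha2]
  have ha'b : ∀ k ≤ r + 2, 0 ≤ a' k ∧ a' k ≤ A := by
    intro k hk
    rcases Nat.lt_or_ge k (r + 1) with h | h
    · by_cases h2 : k = r ∧ 0 < r
      · simp only [ha']; rw [if_pos h2]; exact ⟨hA.le, le_rfl⟩
      · simp only [ha']; rw [if_neg h2]; exact ha k (by omega)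
    · rcases h.eq_or_lt with h | h
      · rw [← h, ha'1]; exact ⟨hA.le, le_rfl⟩
      · have : k = r + 2 := by omega
        rw [this, ha'2]; exact ⟨le_rfl, hA.le⟩
  set b' : ℕ → ℝ := fun k => B + -(B / A) * a' k with hb'
  obtain ⟨z1, z2, z3, z4⟩ := line_zero v w B (-(B / A)) a' (r + 2) r ha'0 ha'2
  have hbox : ∀ k ≤ r + 2, |a k| ≤ max A B ∧ |b k| ≤ max A B ∧ |a' k| ≤ max A B ∧
      |b' k| ≤ max A B := by
    intro k hk
    have q1 : |a' k| ≤ max A B := by
      rw [abs_of_nonneg (ha'b k hk).1]; exact (ha'b k hk).2.trans (le_max_left _ _)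
    have q2 : |b' k| ≤ max A B := by
      have h1 : 0 ≤ B + -(B / A) * a' k := by
        have : B / A * a' k ≤ B / A * A :=
          mul_le_mul_of_nonneg_left (ha'b k hk).2 (by positivity)
        linarith
      have h2 : B + -(B / A) * a' k ≤ B := by
        have : 0 ≤ B / A * a' k := mul_nonneg (by positivity) (ha'b k hk).1
        linarith
      simp only [hb']
      rw [abs_of_nonneg h1]; exact h2.trans (le_max_right _ _)
    refine ⟨?_, ?_, q1, q2⟩
    · rcases Nat.lt_or_ge k (r + 1) with h | h
      · rw [abs_of_nonneg (ha k (by omega)).1]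
        exact (ha k (by omega)).2.trans (le_max_left _ _)
      · rcases h.eq_or_lt with h | h
        · rw [← h, ha1, abs_of_pos hA]; exact le_max_left _ _
        · have : k = r + 2 := by omega
          rw [this, ha2, abs_zero]; exact hA.le.trans (le_max_left _ _)
    · rcases Nat.lt_or_ge k (r + 1) with h | h
      · rw [abs_of_nonneg (hb k (by omega)).1]
        exact (hb k (by omega)).2.trans (le_max_right _ _)
      · rcases h.eq_or_lt with h | h
        · rw [← h, hb1, abs_zero]; exact hA.le.trans (le_max_left _ _)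
        · have : k = r + 2 := by omega
          rw [this, hb2, abs_of_pos hB]; exact le_max_right _ _
  obtain ⟨_, l2, l3, l4⟩ := hL a b a' b' hbox
  -- the distance
  have hdst : dst (r + 2) a b a' b' ≤ ((r : ℝ) + 1) * ((1 + A / B) * (2 / (c * A))) * D := by
    unfold dst
    rw [Finset.sum_range_succ, Finset.sum_range_succ]
    have t1 : |a (r + 1) - a' (r + 1)| + |b (r + 1) - b' (r + 1)| = 0 := by
      have : b' (r + 1) = 0 := by
        simp only [hb']; rw [ha'1]; linarith
      rw [this, ha'1, ha1, hb1]; simp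
    have t2 : |a (r + 2) - a' (r + 2)| + |b (r + 2) - b' (r + 2)| = 0 := by
      have : b' (r + 2) = B := by
        simp only [hb']; rw [ha'2]; ring
      rw [this, ha'2, ha2, hb2]; simp
    rw [t1, t2, add_zero, add_zero]
    calc ∑ k ∈ Finset.range (r + 1), (|a k - a' k| + |b k - b' k|)
        ≤ ∑ _k ∈ Finset.range (r + 1), (1 + A / B) * (2 / (c * A) * D) := by
          refine Finset.sum_le_sum fun k hk => ?_
          have hk' : k ≤ r := by
            have := Finset.mem_range.1 hk
            omega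
          have g1 := hn k hk'
          have g2 := hH k hk'
          have g3 : 0 ≤ A / B := by positivity
          have g4 : |a k - a' k| + |b k - b' k| ≤
              (1 + A / B) * (B - B / A * a k - b k) := by
            by_cases h2 : k = r ∧ 0 < r
            · have e1 : a' k = A := by simp only [ha']; rw [if_pos h2]
              have e2 : b' k = 0 := by simp only [hb']; rw [e1]; linarith
              have e3 : b k = 0 := by rw [h2.1, hbr]
              rw [e1, e2, e3, sub_zero, abs_zero, add_zero, abs_sub_comm,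
                abs_of_nonneg (by linarith [(ha k hk').2])]
              have e4 : A / B * (B - B / A * a k - 0) = A - a k := by field_simp; ring
              have g5 : 0 ≤ B - B / A * a k - 0 := by rw [e3] at g1; exact g1
              nlinarith
            · have e1 : a' k = a k := by simp only [ha']; rw [if_neg h2]
              have e2 : |b k - b' k| = B - B / A * a k - b k := by
                simp only [hb']
                rw [e1, abs_sub_comm, abs_of_nonneg (by linarith)]
                ring
              rw [e1, sub_self, abs_zero, zero_add, e2]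
              nlinarith
          exact g4.trans (mul_le_mul_of_nonneg_left g2 (by positivity))
      _ = ((r : ℝ) + 1) * ((1 + A / B) * (2 / (c * A))) * D := by
          rw [Finset.sum_const, Finset.card_range, nsmul_eq_mul]
          push_cast
          ring
  have hfin := mul_le_mul_of_nonneg_left hdst hL0
  refine ⟨hD0, ?_, ?_, ?_⟩
  · rw [z2, sub_zero] at l2
    refine l2.trans (hfin.trans (le_of_eq (by ring)))
  · rw [z3, sub_zero] at l3
    refine l3.trans (hfin.trans (le_of_eq (by ring)))
  · rw [z4, sub_zero] at l4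
    refine l4.trans (hfin.trans (le_of_eq (by ring)))

end Pool.Agent.Work.MP_b5407d_pos_h64
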